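import Pool.Agent.Helper35_FKP.Kit

/-!
# FKP: the Schubert polynomial of the conjugate with the longest element modulo `Isy`
-/

set_option autoImplicit false

open Finset Equiv

noncomputable section

namespace Pool.Agent.FKP.H71

variable {N : ℕ}

theorem ek_esymm (k : ℕ) : ek N N k = MvPolynomial.esymm (Fin N) ℤ k := by
  rw [ek, MvPolynomial.esymm]
  have : (univ.filter fun i : Fin N => i.val < N) = univ :=
    Finset.filter_true_of_mem fun i _ => i.2
  rw [this]

/-- `Isy` is stable under permutations of the variables -/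
theorem isy_rename (σ : Perm (Fin N)) {p : MvPolynomial (Fin N) ℤ} (hp : p ∈ Isy N) :
    MvPolynomial.rename σ p ∈ Isy N := by
  have h1 := Ideal.mem_map_of_mem (MvPolynomial.rename σ : MvPolynomial (Fin N) ℤ →ₐ[ℤ] _) hp
  refine (?_ : Ideal.map _ (Isy N) ≤ Isy N) h1
  rw [Isy, Ideal.map_span, Ideal.span_le]
  rintro _ ⟨z, ⟨k, hk, rfl⟩, rfl⟩
  refine Ideal.subset_span ⟨k, hk, ?_⟩
  rw [ek_esymm]
  exact MvPolynomial.rename_esymm _ _ k σ

/-- the exponents -/
def fT (N : ℕ) (σ : Perm (Fin N)) (k : Fin N) : MvPolynomial (Fin N) ℤ :=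
  MvPolynomial.X (σ k) ^ (N - 1 - (k : ℕ))

theorem prod_split {i j : Fin N} (hij : (i : ℕ) + 1 = j) (f : Fin N → MvPolynomial (Fin N) ℤ) :
    ∏ k, f k = (∏ k ∈ univ.filter (fun k : Fin N => k.val < i.val), f k) *
      (∏ k ∈ univ.filter (fun k : Fin N => j.val < k.val), f k) * (f i * f j) := by
  have hne : i ≠ j := by
    rintro rfl
    omega
  rw [← prod_sdiff (subset_univ ({i, j} : Finset (Fin N))), prod_pair hne]
  congr 1
  rw [← prod_filter_mul_prod_filter_not (univ \ {i, j}) (fun k : Fin N => k.val < i.val)]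
  congr 1
  · refine prod_congr ?_ fun _ _ => rfl
    ext k
    simp only [mem_filter, mem_sdiff, mem_univ, mem_insert, mem_singleton, true_and, not_or,
      and_iff_right_iff_imp]
    intro h
    constructor
    · rintro rfl
      omega
    · rintro rfl
      omega
  · refine prod_congr ?_ fun _ _ => rfl
    ext k
    simp only [mem_filter, mem_sdiff, mem_univ, mem_insert, mem_singleton, true_and, not_or]
    constructor
    · rintro ⟨⟨h1, h2⟩, h3⟩
      have h1' : k.val ≠ i.val := fun h => h1 (Fin.ext h)
      have h2' : k.val ≠ j.val := fun h => h2 (Fin.ext h)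
      omega
    · intro h
      refine ⟨⟨?_, ?_⟩, by omega⟩
      · rintro rfl
        omega
      · rintro rfl
        omega

theorem topm_succ {i : Fin N} :
    topm N (i.val + 1) = topm N i.val * MvPolynomial.X i ^ (N - 1 - i.val) := by
  unfold topm
  have : (univ.filter fun j : Fin N => j.val < i.val + 1) =
      insert i (univ.filter fun j : Fin N => j.val < i.val) := by
    ext k
    simp only [mem_filter, mem_univ, true_and, mem_insert, Fin.ext_iff]
    omega
  rw [this, prod_insert (by simp), mul_comm]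

theorem rename_topm {i j : Fin N} (hij : (i : ℕ) + 1 = j) :
    MvPolynomial.rename (swap i j) (topm N i.val) = topm N i.val := by
  unfold topm
  rw [map_prod]
  refine prod_congr rfl fun k hk => ?_
  have hk' : k.val < i.val := (mem_filter.1 hk).2
  rw [map_pow, MvPolynomial.rename_X, swap_apply_of_ne_of_ne]
  · rintro rfl
    omega
  · rintro rfl
    omega

/-- the monomial changes its sign under adjacent transpositions -/
theorem top_anti (top : TopStmt) (ddi : DdiStmt) {i j : Fin N} (hij : (i : ℕ) + 1 = j) :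
    topm N N + MvPolynomial.rename (swap i j) (topm N N) ∈ Isy N := by
  have hne : i ≠ j := by
    rintro rfl
    omega
  obtain ⟨a, ha⟩ : ∃ a, N - 1 - i.val = a + 1 := ⟨N - 2 - i.val, by have := j.2; omega⟩
  have hb : N - 1 - j.val = a := by omega
  set g := topm N i.val with hg
  have h1 : g * MvPolynomial.X i ^ (a + 2) ∈ Isy N := by
    have := top N (i.val + 1) i (Nat.lt_succ_self _)
    rw [topm_succ, ← hg, ha] at this
    have e : g * MvPolynomial.X i ^ (a + 2) = g * MvPolynomial.X i ^ (a + 1) *
        MvPolynomial.X i := by ring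
    rw [e]
    exact this
  have h2 : g * ∑ k ∈ range (a + 2), MvPolynomial.X i ^ k * MvPolynomial.X j ^ (a + 2 - 1 - k) ∈
      Isy N := by
    refine ddi N i j _ _ hne ?_ h1
    rw [map_mul, hg, rename_topm hij, ← hg, map_pow, MvPolynomial.rename_X, swap_apply_left,
      ← mul_sub, ← (Commute.all (MvPolynomial.X i : MvPolynomial (Fin N) ℤ)
        (MvPolynomial.X j)).mul_geom_sum₂]
    ring
  have h3 : g * (MvPolynomial.X i ^ (a + 1) * MvPolynomial.X j ^ a +
      MvPolynomial.X i ^ a * MvPolynomial.X j ^ (a + 1)) ∈ Isy N := by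
    have h4 := (Isy N).mul_mem_left (MvPolynomial.X i ^ a) h2
    rw [sum_range_succ', sum_range_succ'] at h4
    have h5 : ∑ k ∈ range a, g * MvPolynomial.X i ^ (a + 2) *
        (MvPolynomial.X i ^ k * MvPolynomial.X j ^ (a + 2 - 1 - (k + 1 + 1))) ∈ Isy N :=
      Ideal.sum_mem _ fun k _ => (Isy N).mul_mem_right _ h1
    have h6 := (Isy N).sub_mem h4 h5
    have e : MvPolynomial.X i ^ a * (g * (∑ k ∈ range a,
        MvPolynomial.X i ^ (k + 1 + 1) * MvPolynomial.X j ^ (a + 2 - 1 - (k + 1 + 1)) +
        MvPolynomial.X i ^ (0 + 1) * MvPolynomial.X j ^ (a + 2 - 1 - (0 + 1)) +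
        MvPolynomial.X i ^ 0 * MvPolynomial.X j ^ (a + 2 - 1 - 0))) -
        ∑ k ∈ range a, g * MvPolynomial.X i ^ (a + 2) *
        (MvPolynomial.X i ^ k * MvPolynomial.X j ^ (a + 2 - 1 - (k + 1 + 1))) =
        g * (MvPolynomial.X i ^ (a + 1) * MvPolynomial.X j ^ a +
          MvPolynomial.X i ^ a * MvPolynomial.X j ^ (a + 1)) := by
      have e1 : a + 2 - 1 - (0 + 1) = a := by omega
      have e2 : a + 2 - 1 - 0 = a + 1 := by omega
      rw [e1, e2]
      have e3 : ∑ k ∈ range a, g * MvPolynomial.X i ^ (a + 2) *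
          (MvPolynomial.X i ^ k * MvPolynomial.X j ^ (a + 2 - 1 - (k + 1 + 1))) =
          MvPolynomial.X i ^ a * g * ∑ k ∈ range a, MvPolynomial.X i ^ (k + 1 + 1) *
            MvPolynomial.X j ^ (a + 2 - 1 - (k + 1 + 1)) := by
        rw [mul_sum]
        refine sum_congr rfl fun k _ => ?_
        ring
      rw [e3]
      ring
    rwa [e] at h6
  have hT : topm N N = ∏ k : Fin N, MvPolynomial.X k ^ (N - 1 - k.val) := by
    unfold topm
    rw [Finset.filter_true_of_mem fun i _ => i.2]
  set r := ∏ k ∈ univ.filter (fun k : Fin N => j.val < k.val),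
    (MvPolynomial.X k : MvPolynomial (Fin N) ℤ) ^ (N - 1 - k.val) with hr
  have e1 : topm N N = g * r * (MvPolynomial.X i ^ (a + 1) * MvPolynomial.X j ^ a) := by
    rw [hT, prod_split hij, ha, hb]
    rfl
  have e2 : MvPolynomial.rename (swap i j) (topm N N) =
      g * r * (MvPolynomial.X j ^ (a + 1) * MvPolynomial.X i ^ a) := by
    have hgr : MvPolynomial.rename (swap i j) g = g := by rw [hg, rename_topm hij]
    have hrr : MvPolynomial.rename (swap i j) r = r := by
      rw [hr, map_prod]
      refine prod_congr rfl fun k hk => ?_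
      have hk' : j.val < k.val := (mem_filter.1 hk).2
      rw [map_pow, MvPolynomial.rename_X, swap_apply_of_ne_of_ne]
      · rintro rfl
        omega
      · rintro rfl
        omega
    rw [e1, map_mul, map_mul, map_mul, map_pow, map_pow, hgr, hrr, MvPolynomial.rename_X,
      MvPolynomial.rename_X, swap_apply_left, swap_apply_right]
  have h7 := (Isy N).mul_mem_left r h3
  rw [e2, e1]
  have e3 : g * r * (MvPolynomial.X i ^ (a + 1) * MvPolynomial.X j ^ a) +
      g * r * (MvPolynomial.X j ^ (a + 1) * MvPolynomial.X i ^ a) =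
      r * (g * (MvPolynomial.X i ^ (a + 1) * MvPolynomial.X j ^ a +
        MvPolynomial.X i ^ a * MvPolynomial.X j ^ (a + 1))) := by ring
  rw [e3]
  exact h7

/-- the sign of a permutation as a polynomial -/
def sg (w : Perm (Fin N)) : MvPolynomial (Fin N) ℤ := ((Perm.sign w : ℤˣ) : ℤ)

theorem sg_mul (w : Perm (Fin N)) {i j : Fin N} (h : i ≠ j) : sg (w * swap i j) = - sg w := by
  unfold sg
  rw [Perm.sign_mul, Perm.sign_swap h]
  push_cast
  ring

theorem sg_sq (w : Perm (Fin N)) : sg w * sg w = 1 := by
  unfold sg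
  rcases Int.units_eq_one_or (Perm.sign w) with h | h <;> rw [h] <;> simp

theorem top_sign (top : TopStmt) (ddi : DdiStmt) (w : Perm (Fin N)) :
    MvPolynomial.rename w (topm N N) - sg w * sg (Fin.revPerm : Perm (Fin N)) *
      MvPolynomial.rename (Fin.revPerm : Perm (Fin N)) (topm N N) ∈ Isy N := by
  induction w using H35.down_induction with
  | h0 => rw [sg_sq, one_mul, sub_self]; exact (Isy N).zero_mem
  | hs w i j hij _ ih =>
    have hne : i ≠ j := by
      rintro rfl
      omega
    have h1 := isy_rename w (top_anti top ddi hij)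
    rw [map_add, MvPolynomial.rename_rename] at h1
    have h2 := (Isy N).sub_mem h1 ih
    rw [sg_mul _ hne]
    have e : MvPolynomial.rename (⇑w ∘ ⇑(swap i j)) (topm N N) =
      MvPolynomial.rename (⇑(w * swap i j)) (topm N N) := rfl
    rw [e] at h2
    have e2 : MvPolynomial.rename (⇑(w * swap i j)) (topm N N) -
        -sg w * sg Fin.revPerm * MvPolynomial.rename (Fin.revPerm : Perm (Fin N)) (topm N N) =
        MvPolynomial.rename (⇑w) (topm N N) + MvPolynomial.rename (⇑(w * swap i j)) (topm N N) -
        (MvPolynomial.rename (⇑w) (topm N N) - sg w * sg Fin.revPerm *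
          MvPolynomial.rename (Fin.revPerm : Perm (Fin N)) (topm N N)) := by ring
    rw [e2]
    exact h2

theorem sign_rev : Perm.sign (Fin.revPerm : Perm (Fin N)) = ∏ j : Fin N, (-1) ^ (j : ℕ) := by
  rw [Perm.sign_eq_prod_prod_Iio]
  refine prod_congr rfl fun j _ => ?_
  have h : ∀ i ∈ Finset.Iio j,
      (if (Fin.revPerm i : Fin N) < Fin.revPerm j then 1 else -1 : ℤˣ) = -1 := by
    intro i hi
    rw [Finset.mem_Iio] at hi
    rw [if_neg]
    simp [not_lt, hi.le]
  rw [prod_congr rfl h, prod_const, Fin.card_Iio]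

theorem sg_rev : sg (Fin.revPerm : Perm (Fin N)) = ∏ j : Fin N, (-1) ^ (j : ℕ) := by
  unfold sg
  rw [sign_rev]
  simp

/-- the ring homomorphism of the statement -/
def ph (N : ℕ) : MvPolynomial (Fin N) ℤ →+* MvPolynomial (Fin N) ℤ :=
  MvPolynomial.eval₂Hom MvPolynomial.C (fun i => -MvPolynomial.X (Fin.rev i))

theorem ph_X (i : Fin N) : ph N (MvPolynomial.X i) = - MvPolynomial.X (Fin.rev i) :=
  MvPolynomial.eval₂Hom_X' _ _ _

theorem ph_rename (i j : Fin N) (p : MvPolynomial (Fin N) ℤ) :
    ph N (MvPolynomial.rename (swap i j) p) =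
      MvPolynomial.rename (swap (Fin.rev j) (Fin.rev i)) (ph N p) := by
  induction p using MvPolynomial.induction_on with
  | C c => simp [ph]
  | add p q hp hq => rw [map_add, map_add, map_add, map_add, hp, hq]
  | mul_X p k hp =>
    rw [map_mul, map_mul, map_mul, map_mul, hp, MvPolynomial.rename_X, ph_X, ph_X, map_neg,
      MvPolynomial.rename_X]
    congr 3
    by_cases h1 : k = i
    · subst h1
      rw [swap_apply_left, swap_apply_right]
    · by_cases h2 : k = j
      · subst h2
        rw [swap_apply_right, swap_apply_left]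
      · rw [swap_apply_of_ne_of_ne h1 h2, swap_apply_of_ne_of_ne (Fin.rev_injective.ne h2)
          (Fin.rev_injective.ne h1)]

theorem dua (top : TopStmt) (ddi : DdiStmt) : DuaStmt := by
  intro N S hS w
  change S (revc w) - ph N (S w) ∈ Isy N
  induction w using H35.down_induction with
  | h0 =>
    have e0 : revc (Fin.revPerm : Perm (Fin N)) = Fin.revPerm := by
      ext i
      simp [revc]
    have hT : topm N N = ∏ k : Fin N, MvPolynomial.X k ^ (N - 1 - k.val) := by
      unfold topm
      rw [Finset.filter_true_of_mem fun i _ => i.2]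
    have e1 : ph N (topm N N) = sg (Fin.revPerm : Perm (Fin N)) *
        MvPolynomial.rename (Fin.revPerm : Perm (Fin N)) (topm N N) := by
      rw [hT, map_prod, map_prod, sg_rev]
      have e2 : ∏ k : Fin N, ph N (MvPolynomial.X k ^ (N - 1 - k.val)) =
          ∏ k : Fin N, ((-1) ^ (N - 1 - k.val) *
            MvPolynomial.rename (Fin.revPerm : Perm (Fin N))
              ((MvPolynomial.X k : MvPolynomial (Fin N) ℤ) ^ (N - 1 - k.val))) := by
        refine prod_congr rfl fun k _ => ?_
        rw [map_pow, map_pow, ph_X, MvPolynomial.rename_X, neg_pow]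
        rfl
      rw [e2, prod_mul_distrib]
      congr 1
      rw [← Equiv.prod_comp (Fin.revPerm : Perm (Fin N))]
      refine prod_congr rfl fun k _ => ?_
      congr 1
      rw [Fin.revPerm_apply, Fin.val_rev]
      have := k.2
      omega
    rw [e0, hS.1, ← hT, e1]
    have h1 := top_sign top ddi (1 : Perm (Fin N))
    have e3 : sg (1 : Perm (Fin N)) = 1 := by simp [sg]
    have e4 : MvPolynomial.rename (⇑(1 : Perm (Fin N))) (topm N N) = topm N N := by
      have : (⇑(1 : Perm (Fin N))) = id := rfl
      rw [this, MvPolynomial.rename_id_apply]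
    rw [e3, e4, one_mul] at h1
    exact h1
  | hs w i j hij hw ih =>
    have hne : i ≠ j := by
      rintro rfl
      omega
    have hi := i.2
    have hj := j.2
    have hij' : ((Fin.rev j : Fin N) : ℕ) + 1 = Fin.rev i := by
      rw [Fin.val_rev, Fin.val_rev]
      omega
    have hw' : (revc w) (Fin.rev i) < (revc w) (Fin.rev j) := by
      simp [revc, hw]
    have h1 := hS.2 (revc w) _ _ hij' hw'
    have h2 := congrArg (ph N) (hS.2 w i j hij hw)
    rw [map_mul, map_sub, map_sub, ph_X, ph_X, ph_rename] at h2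
    have e1 : revc (w * swap i j) = revc w * swap (Fin.rev j) (Fin.rev i) := by
      ext k
      simp only [revc, Perm.mul_apply, Fin.revPerm_apply]
      congr 3
      by_cases h1 : k = Fin.rev i
      · subst h1
        rw [Fin.rev_rev, swap_apply_left, swap_apply_right, Fin.rev_rev]
      · by_cases h2 : k = Fin.rev j
        · subst h2
          rw [Fin.rev_rev, swap_apply_left, swap_apply_right, Fin.rev_rev]
        · rw [swap_apply_of_ne_of_ne h2 h1, swap_apply_of_ne_of_ne]
          · intro h
            exact h1 (by rw [← h, Fin.rev_rev])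
          · intro h
            exact h2 (by rw [← h, Fin.rev_rev])
    rw [e1]
    refine ddi N (Fin.rev j) (Fin.rev i) _ _ (Fin.rev_injective.ne hne.symm) ?_ ih
    rw [map_sub, mul_sub, h1]
    have e2 : (MvPolynomial.X (Fin.rev j) - MvPolynomial.X (Fin.rev i)) *
        ph N (S (w * swap i j)) = ph N (S w) -
          MvPolynomial.rename (swap (Fin.rev j) (Fin.rev i)) (ph N (S w)) := by
      rw [← h2]
      ring
    rw [e2]
    ring

end Pool.Agent.FKP.H71
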