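import Pool.Agent.FKP.Stmts

/-!
# FKP, module STR: star words with the same first and last letter vanish in `A N`
-/

set_option autoImplicit false

open Finset

noncomputable section

namespace Pool.Agent.FKP.H71

section abs

variable {R ι : Type*} [Ring R]

/-- the product of the letters -/
def pp (x : ι → R) (l : List ι) : R := (l.map x).prod

/-- the sum over the splittings `v = v₁ ++ c :: v₂` of `x c * v₂ * u * v₁ * x c` -/
def T (x : ι → R) : List ι → List ι → R
  | _, [] => 0
  | u, c :: v => x c * pp x v * pp x u * x c + T x (u ++ [c]) v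

theorem pp_nil (x : ι → R) : pp x [] = 1 := by simp [pp]

theorem pp_cons (x : ι → R) (a : ι) (l : List ι) : pp x (a :: l) = x a * pp x l := by
  simp [pp]

theorem pp_append (x : ι → R) (u v : List ι) : pp x (u ++ v) = pp x u * pp x v := by
  simp [pp]

theorem comm_pp (x : ι → R) (t : R) (l : List ι) (h : ∀ c ∈ l, t * x c = x c * t) :
    t * pp x l = pp x l * t := by
  induction l with
  | nil => simp [pp_nil]
  | cons a l ih =>
    rw [pp_cons, ← mul_assoc, h a (by simp), mul_assoc, ih (fun c hc => h c (by simp [hc])),
      mul_assoc]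

theorem T_two (x : ι → R) (a b : ι) (t : R) (hab : x a * x b = x b * t - t * x a)
    (v : List ι) : ∀ u : List ι, (∀ c ∈ u, t * x c = x c * t) → (∀ c ∈ v, t * x c = x c * t) →
      T x (a :: b :: u) v = T x (b :: u) v * t - t * T x (a :: u) v := by
  induction v with
  | nil => intro u _ _; simp [T]
  | cons c v ih =>
    intro u hu hv
    have hc : t * x c = x c * t := hv c (by simp)
    have hv' : ∀ c ∈ v, t * x c = x c * t := fun d hd => hv d (by simp [hd])
    have hu' : ∀ d ∈ u ++ [c], t * x d = x d * t := by
      intro d hd
      rcases List.mem_append.1 hd with h | h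
      · exact hu d h
      · have : d = c := by simpa using h
        rw [this]; exact hc
    have e := ih (u ++ [c]) hu' hv'
    simp only [T, List.cons_append] at *
    rw [e]
    simp only [pp_cons]
    have c1 : t * pp x u = pp x u * t := comm_pp x t u hu
    have c2 : t * pp x v = pp x v * t := comm_pp x t v hv'
    have main : x c * pp x v * (x a * (x b * pp x u)) * x c =
        x c * pp x v * (x b * pp x u) * x c * t - t * (x c * pp x v * (x a * pp x u) * x c) := by
      calc x c * pp x v * (x a * (x b * pp x u)) * x c
          = x c * pp x v * ((x a * x b) * pp x u) * x c := by simp only [mul_assoc]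
        _ = x c * pp x v * ((x b * t - t * x a) * pp x u) * x c := by rw [hab]
        _ = x c * pp x v * x b * (t * pp x u) * x c - x c * (pp x v * t) * (x a * pp x u) * x c := by
          simp only [mul_assoc, sub_mul, mul_sub]
        _ = x c * pp x v * x b * pp x u * (t * x c) - x c * t * pp x v * (x a * pp x u) * x c := by
          rw [c1, ← c2]; simp only [mul_assoc]
        _ = _ := by
          have e5 : x c * t * pp x v * (x a * pp x u) * x c =
              t * (x c * pp x v * (x a * pp x u) * x c) := by
            rw [← hc]; simp only [mul_assoc]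
          rw [e5, hc]; simp only [mul_assoc]
    rw [main]
    rw [add_mul, mul_add]
    abel

/-- the cyclic relation -/
theorem T_zero (x : ι → R) (t : ι → ι → R) (s : Set ι) (h1 : ∀ a ∈ s, x a * x a = 0)
    (h2 : ∀ a ∈ s, ∀ b ∈ s, a ≠ b → x a * x b = x b * t a b - t a b * x a)
    (h3 : ∀ a ∈ s, ∀ b ∈ s, ∀ c ∈ s, a ≠ b → c ≠ a → c ≠ b → t a b * x c = x c * t a b) :
    ∀ (n : ℕ) (l : List ι), l.length ≤ n → (∀ c ∈ l, c ∈ s) → l.Nodup → T x [] l = 0 := by
  intro n
  induction n with
  | zero =>
    intro l hl _ _
    have : l = [] := List.length_eq_zero_iff.1 (Nat.le_zero.1 hl)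
    rw [this]; simp [T]
  | succ n ih =>
    intro l hl hs hn
    match l with
    | [] => simp [T]
    | [a] =>
      have := h1 a (hs a (by simp))
      simp [T, pp_nil, this]
    | a :: b :: v =>
      have ha : a ∈ s := hs a (by simp)
      have hb : b ∈ s := hs b (by simp)
      have hvs : ∀ c ∈ v, c ∈ s := fun c hc => hs c (by simp [hc])
      rw [List.nodup_cons, List.nodup_cons] at hn
      obtain ⟨hna, hnb, hnv⟩ := hn
      have hab : a ≠ b := by
        intro h; exact hna (by simp [h])
      have hav : a ∉ v := fun h => hna (by simp [h])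
      have e1 : T x [] (b :: v) = 0 := by
        refine ih _ ?_ ?_ ?_
        · simp only [List.length_cons] at hl ⊢; omega
        · intro c hc
          rcases List.mem_cons.1 hc with h | h
          · rw [h]; exact hb
          · exact hvs c h
        · rw [List.nodup_cons]; exact ⟨hnb, hnv⟩
      have e2 : T x [] (a :: v) = 0 := by
        refine ih _ ?_ ?_ ?_
        · simp only [List.length_cons] at hl ⊢; omega
        · intro c hc
          rcases List.mem_cons.1 hc with h | h
          · rw [h]; exact ha
          · exact hvs c h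
        · rw [List.nodup_cons]; exact ⟨hav, hnv⟩
      have hcv : ∀ c ∈ v, t a b * x c = x c * t a b := by
        intro c hc
        refine h3 a ha b hb c (hvs c hc) hab ?_ ?_
        · intro h; exact hav (h ▸ hc)
        · intro h; exact hnb (h ▸ hc)
      have e3 := T_two x a b (t a b) (h2 a ha b hb hab) v [] (by simp) hcv
      have c2 : t a b * pp x v = pp x v * t a b := comm_pp x _ v hcv
      simp only [T, List.nil_append, List.cons_append, pp_nil, pp_cons,
        mul_one] at e1 e2 e3 ⊢
      rw [e3]
      have r1 : x a * (x b * pp x v) * x a =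
          x b * pp x v * (t a b * x a) - t a b * (x a * pp x v * x a) := by
        calc x a * (x b * pp x v) * x a = (x a * x b) * pp x v * x a := by simp only [mul_assoc]
          _ = (x b * t a b - t a b * x a) * pp x v * x a := by rw [h2 a ha b hb hab]
          _ = x b * (t a b * pp x v) * x a - t a b * (x a * pp x v * x a) := by
            simp only [mul_assoc, sub_mul]
          _ = _ := by rw [c2]; simp only [mul_assoc]
      have r2 : x b * pp x v * x a * x b =
          x b * pp x v * x b * t a b - x b * pp x v * (t a b * x a) := by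
        rw [mul_assoc (x b * pp x v) (x a) (x b), h2 a ha b hb hab, mul_sub]
        simp only [mul_assoc]
      rw [r1, r2]
      have z1 : T x [b] v = -(x b * pp x v * x b) := by
        rw [eq_neg_iff_add_eq_zero, add_comm]; exact e1
      have z2 : T x [a] v = -(x a * pp x v * x a) := by
        rw [eq_neg_iff_add_eq_zero, add_comm]; exact e2
      rw [z1, z2]
      simp only [neg_mul, mul_neg]
      abel

end abs

variable {N : ℕ}

theorem pp_mem (x : Fin N → A N) (l : List (Fin N)) (h : ∀ c ∈ l, x c ∈ P N) :
    pp x l ∈ P N := by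
  induction l with
  | nil => rw [pp_nil]; exact one_mem _
  | cons a l ih =>
    rw [pp_cons]
    exact mul_mem (h a (by simp)) (ih fun c hc => h c (by simp [hc]))

theorem T_mem (x : Fin N → A N) (v : List (Fin N)) : ∀ u : List (Fin N),
    (∀ c ∈ u, x c ∈ P N) → (∀ c ∈ v, x c ∈ P N) → T x u v ∈ P N := by
  induction v with
  | nil => intro u _ _; simp only [T]; exact zero_mem _
  | cons c v ih =>
    intro u hu hv
    have hc := hv c (by simp)
    have hv' : ∀ c ∈ v, x c ∈ P N := fun d hd => hv d (by simp [hd])
    simp only [T]
    refine add_mem (mul_mem (mul_mem (mul_mem hc (pp_mem x v hv')) (pp_mem x u hu)) hc) (ih _ ?_ hv')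
    intro d hd
    rcases List.mem_append.1 hd with h | h
    · exact hu d h
    · have : d = c := by simpa using h
      rw [this]; exact hc

theorem star_zero (x : Fin N → A N) (t : Fin N → Fin N → A N) (s : Set (Fin N))
    (h0 : ∀ a ∈ s, x a ∈ P N) (h1 : ∀ a ∈ s, x a * x a = 0)
    (h2 : ∀ a ∈ s, ∀ b ∈ s, a ≠ b → x a * x b = x b * t a b - t a b * x a)
    (h3 : ∀ a ∈ s, ∀ b ∈ s, ∀ c ∈ s, a ≠ b → c ≠ a → c ≠ b → t a b * x c = x c * t a b)
    (a : Fin N) (l : List (Fin N)) (hs : ∀ c ∈ a :: l, c ∈ s) (hn : (a :: l).Nodup) :
    x a * pp x l * x a = 0 := by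
  have e := T_zero x t s h1 h2 h3 _ (a :: l) le_rfl hs hn
  simp only [T, List.nil_append, pp_nil, mul_one] at e
  have ha := h0 a (hs a (by simp))
  have hl : ∀ c ∈ l, x c ∈ P N := fun c hc => h0 c (hs c (by simp [hc]))
  refine eq_zero_of_add (mul_mem (mul_mem ha (pp_mem x l hl)) ha) (T_mem x l [a] ?_ hl) e
  intro c hc
  have : c = a := by simpa using hc
  rw [this]; exact ha

theorem pp_neg (x y : Fin N → A N) (h : ∀ c, y c = -x c) (l : List (Fin N)) :
    pp y l = pp x l ∨ pp y l = -pp x l := by
  induction l with
  | nil => left; simp [pp_nil]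
  | cons a l ih =>
    rw [pp_cons, pp_cons, h a]
    rcases ih with e | e
    · right; rw [e, neg_mul]
    · left; rw [e, neg_mul_neg]

theorem str : StrStmt := by
  intro N k a l hn hk
  have hpath : ∀ {a b : Fin N}, a ≠ b → a ≠ k → b ≠ k →
      X a k * X b k = (X b k * X a b - X a b * X a k : A N) := by
    intro a b h1 h2 h3
    have := X_path' (N := N) h1 h3 h2
    rw [this]; abel
  rcases hk with hk | hk
  · have := star_zero (fun c => (X c k : A N)) (fun a b => X a b) {c | c < k}
      (fun a ha => X_mem ha) (fun a _ => X_sq a k)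
      (fun a ha b hb hab => hpath hab (ne_of_lt ha) (ne_of_lt hb))
      (fun a ha b hb c hc _ hca hcb => X_comm hca.symm (ne_of_lt ha) hcb.symm (ne_of_lt hb))
      a l hk hn
    exact this
  · have := star_zero (fun c => (X k c : A N)) (fun a b => -X a b) {c | k < c}
      (fun a ha => X_mem ha) (fun a _ => X_sq k a)
      (fun a ha b hb hab => by
        have e := hpath hab (ne_of_gt ha) (ne_of_gt hb)
        have e1 : (X k a : A N) = -X a k := X_neg a k
        have e2 : (X k b : A N) = -X b k := X_neg b k
        show X k a * X k b = X k b * (-X a b) - (-X a b) * X k a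
        rw [e1, e2, neg_mul_neg, neg_mul_neg, neg_mul_neg]
        exact e)
      (fun a ha b hb c hc _ hca hcb => by
        show -X a b * X k c = X k c * -X a b
        rw [neg_mul, mul_neg, X_comm (ne_of_gt ha) hca.symm (ne_of_gt hb) hcb.symm])
      a l hk hn
    have e1 : (X a k : A N) = -X k a := X_neg k a
    have e3 := pp_neg (fun c => (X k c : A N)) (fun c => (X c k : A N)) (fun c => X_neg k c) l
    show X a k * pp (fun c => (X c k : A N)) l * X a k = 0
    have this' : X k a * pp (fun c => (X k c : A N)) l * X k a = 0 := this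
    rcases e3 with e | e
    · rw [e, e1, neg_mul, neg_mul_neg, this']
    · rw [e, e1, neg_mul_neg, mul_neg, this', neg_zero]

end Pool.Agent.FKP.H71
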